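import Mathlib
import Pool.Agent.Helper175.NS.Main

/-!
# Constructible complexes and knotted triangles

A constructible complex of dimension three cannot carry a local system of three sheets around a
triangle of edges which is locally but not globally trivial on the prescribed pieces.
-/

set_option autoImplicit false

namespace Pool.Agent.Y769.NC

open Pool.Agent.Helper175.NS

/-- Constructible complexes, given by their sets of faces: a simplex with `n` vertices is
constructible, and so is the union of two constructible complexes with `n + 1` vertices in each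
facet whose intersection is constructible with `n` vertices in each facet. -/
inductive Con {V : Type} : ℕ → Set (Finset V) → Prop
  | simplex (F : Finset V) : Con F.card {G | G ⊆ F}
  | union (n : ℕ) (A B : Set (Finset V)) : Con (n + 1) A → Con (n + 1) B → Con n (A ∩ B) →
      Con (n + 1) (A ∪ B)

section basic

variable {V : Type} {n : ℕ} {A : Set (Finset V)}

theorem Con.down (h : Con n A) : ∀ F ∈ A, ∀ G ⊆ F, G ∈ A := by
  induction h with
  | simplex F => intro F' hF' G hG; exact hG.trans hF'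
  | union n A B _ _ _ ihA ihB _ =>
    rintro F (hF | hF) G hG
    · exact Or.inl (ihA F hF G hG)
    · exact Or.inr (ihB F hF G hG)

theorem Con.pure (h : Con n A) : ∀ G ∈ A, ∃ F ∈ A, G ⊆ F ∧ F.card = n := by
  induction h with
  | simplex F => intro G hG; exact ⟨F, Finset.Subset.refl F, hG, rfl⟩
  | union n A B _ _ _ ihA ihB _ =>
    rintro G (hG | hG)
    · obtain ⟨F, h1, h2, h3⟩ := ihA G hG
      exact ⟨F, Or.inl h1, h2, h3⟩
    · obtain ⟨F, h1, h2, h3⟩ := ihB G hG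
      exact ⟨F, Or.inr h1, h2, h3⟩

theorem Con.empty_mem (h : Con n A) : ∅ ∈ A := by
  induction h with
  | simplex F => exact Finset.empty_subset F
  | union n A B _ _ _ ihA _ _ => exact Or.inl ihA

theorem Con.card_le (h : Con n A) : ∀ G ∈ A, G.card ≤ n := by
  intro G hG
  obtain ⟨F, _, h2, h3⟩ := h.pure G hG
  exact h3 ▸ Finset.card_le_card h2

theorem Con.facet (h : Con n A) : ∃ F ∈ A, F.card = n := by
  obtain ⟨F, h1, _, h3⟩ := h.pure ∅ h.empty_mem
  exact ⟨F, h1, h3⟩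

/-- The link of a face. -/
def lk [DecidableEq V] (τ : Finset V) (A : Set (Finset V)) : Set (Finset V) :=
  {G | Disjoint G τ ∧ G ∪ τ ∈ A}

theorem Con.link [DecidableEq V] (h : Con n A) : ∀ τ ∈ A, Con (n - τ.card) (lk τ A) := by
  induction h with
  | simplex F =>
    intro τ hτ
    have hτ' : τ ⊆ F := hτ
    have e : lk τ {G | G ⊆ F} = {G | G ⊆ F \ τ} := by
      ext G
      constructor
      · rintro ⟨h1, h2⟩
        exact Finset.subset_sdiff.2 ⟨Finset.subset_union_left.trans h2, h1⟩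
      · intro h1
        obtain ⟨h2, h3⟩ := Finset.subset_sdiff.1 h1
        exact ⟨h3, Finset.union_subset h2 hτ'⟩
    rw [e, ← Finset.card_sdiff_of_subset hτ']
    exact Con.simplex _
  | union n A B hA hB hC ihA ihB ihC =>
    intro τ hτ
    have e : lk τ (A ∪ B) = lk τ A ∪ lk τ B := by
      ext G
      constructor
      · rintro ⟨h1, h2 | h2⟩
        · exact Or.inl ⟨h1, h2⟩
        · exact Or.inr ⟨h1, h2⟩
      · rintro (⟨h1, h2⟩ | ⟨h1, h2⟩)
        · exact ⟨h1, Or.inl h2⟩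
        · exact ⟨h1, Or.inr h2⟩
    have e0 : ∀ D : Set (Finset V), (∀ F ∈ D, ∀ G ⊆ F, G ∈ D) → τ ∉ D → lk τ D = ∅ := by
      intro D hD h
      ext G
      constructor
      · rintro ⟨_, h2⟩
        exact absurd (hD _ h2 τ Finset.subset_union_right) h
      · intro h1
        exact absurd h1 (Set.notMem_empty G)
    rw [e]
    by_cases h1 : τ ∈ A
    · by_cases h2 : τ ∈ B
      · have h3 : τ.card ≤ n := hC.card_le τ ⟨h1, h2⟩
        have e1 : n + 1 - τ.card = n - τ.card + 1 := by omega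
        have i1 := ihA τ h1
        have i2 := ihB τ h2
        have i3 := ihC τ ⟨h1, h2⟩
        rw [e1] at i1 i2 ⊢
        have e2 : lk τ (A ∩ B) = lk τ A ∩ lk τ B := by
          ext G
          constructor
          · rintro ⟨h1, h2, h3⟩
            exact ⟨⟨h1, h2⟩, ⟨h1, h3⟩⟩
          · rintro ⟨⟨h1, h2⟩, ⟨_, h3⟩⟩
            exact ⟨h1, h2, h3⟩
        rw [e2] at i3
        exact Con.union _ _ _ i1 i2 i3
      · rw [e0 B hB.down h2, Set.union_empty]
        exact ihA τ h1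
    · rw [e0 A hA.down h1, Set.empty_union]
      rcases hτ with hτ | hτ
      · exact absurd hτ h1
      · exact ihB τ hτ

/-- Adjacent facets containing `σ`. -/
def Adj (A : Set (Finset V)) (n : ℕ) (σ G G' : Finset V) : Prop :=
  G ∈ A ∧ G' ∈ A ∧ G.card = n ∧ G'.card = n ∧ ∃ T, T ⊆ G ∧ T ⊆ G' ∧ σ ⊆ T ∧ T.card + 1 = n

theorem Adj.symm {σ G G' : Finset V} (h : Adj A n σ G G') : Adj A n σ G' G := by
  obtain ⟨h1, h2, h3, h4, T, h5, h6, h7, h8⟩ := h
  exact ⟨h2, h1, h4, h3, T, h6, h5, h7, h8⟩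

theorem Con.chain (h : Con n A) : ∀ σ F F' : Finset V, F ∈ A → F' ∈ A → F.card = n →
    F'.card = n → σ ⊆ F → σ ⊆ F' → Relation.ReflTransGen (Adj A n σ) F F' := by
  induction h with
  | simplex F =>
    intro σ G G' hG hG' h1 h2 _ _
    have e1 : G = F := Finset.eq_of_subset_of_card_le hG (le_of_eq h1.symm)
    have e2 : G' = F := Finset.eq_of_subset_of_card_le hG' (le_of_eq h2.symm)
    rw [e1, e2]
  | union n A B hA hB hC ihA ihB _ =>
    intro σ F F' hF hF' h1 h2 h3 h4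
    have mA : ∀ G G', Relation.ReflTransGen (Adj A (n + 1) σ) G G' →
        Relation.ReflTransGen (Adj (A ∪ B) (n + 1) σ) G G' := fun G G' h =>
      (Relation.ReflTransGen.mono (fun x y hxy =>
        ⟨Or.inl hxy.1, Or.inl hxy.2.1, hxy.2.2⟩) : _ ≤ _) G G' h
    have mB : ∀ G G', Relation.ReflTransGen (Adj B (n + 1) σ) G G' →
        Relation.ReflTransGen (Adj (A ∪ B) (n + 1) σ) G G' := fun G G' h =>
      (Relation.ReflTransGen.mono (fun x y hxy =>
        ⟨Or.inr hxy.1, Or.inr hxy.2.1, hxy.2.2⟩) : _ ≤ _) G G' h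
    have cross : ∀ F F' : Finset V, F ∈ A → F' ∈ B → F.card = n + 1 → F'.card = n + 1 →
        σ ⊆ F → σ ⊆ F' → Relation.ReflTransGen (Adj (A ∪ B) (n + 1) σ) F F' := by
      intro F F' hF hF' h1 h2 h3 h4
      obtain ⟨T, hT, hσT, hTc⟩ := hC.pure σ ⟨hA.down F hF σ h3, hB.down F' hF' σ h4⟩
      obtain ⟨GA, hGA, hTA, hGAc⟩ := hA.pure T hT.1
      obtain ⟨GB, hGB, hTB, hGBc⟩ := hB.pure T hT.2
      refine (mA _ _ (ihA σ F GA hF hGA h1 hGAc h3 (hσT.trans hTA))).trans
        (Relation.ReflTransGen.trans (Relation.ReflTransGen.single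
          ⟨Or.inl hGA, Or.inr hGB, hGAc, hGBc, T, hTA, hTB, hσT, by rw [hTc]⟩)
        (mB _ _ (ihB σ GB F' hGB hF' hGBc h2 (hσT.trans hTB) h4)))
    have sym : ∀ G G', Relation.ReflTransGen (Adj (A ∪ B) (n + 1) σ) G G' →
        Relation.ReflTransGen (Adj (A ∪ B) (n + 1) σ) G' G := fun G G' h => by
      induction h with
      | refl => exact Relation.ReflTransGen.refl
      | tail _ h2 ih => exact Relation.ReflTransGen.head h2.symm ih
    rcases hF with hF | hF <;> rcases hF' with hF' | hF'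
    · exact mA _ _ (ihA σ F F' hF hF' h1 h2 h3 h4)
    · exact cross F F' hF hF' h1 h2 h3 h4
    · exact sym _ _ (cross F' F hF' hF h2 h1 h4 h3)
    · exact mB _ _ (ihB σ F F' hF hF' h1 h2 h3 h4)

end basic

section flat

variable {V : Type}

/-- local conditions on one face -/
structure Gd (K : V → Prop) (psi : V → V → Fin 3 → Fin 3) (col : V → V → Fin 3)
    (F : Finset V) : Prop where
  refl : ∀ u ∈ F, ¬ K u → ∀ c, psi u u c = c
  coc : ∀ u ∈ F, ∀ v ∈ F, ∀ w ∈ F, ¬ K u → ¬ K v → ¬ K w → ∀ c, psi v w (psi u v c) = psi u w c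
  colf : ∀ a ∈ F, K a → ∀ u ∈ F, ∀ v ∈ F, ¬ K u → ¬ K v → psi u v (col a u) = col a v
  cole : ∀ a ∈ F, ∀ b ∈ F, K a → K b → ∀ u ∈ F, ¬ K u → col a u = col b u
  two : ∀ a ∈ F, ∀ b ∈ F, ∀ c ∈ F, K a → K b → K c → a = b ∨ a = c ∨ b = c

variable {K : V → Prop} {psi : V → V → Fin 3 → Fin 3} {col : V → V → Fin 3}

theorem Gd.mono {F G : Finset V} (h : Gd K psi col F) (hG : G ⊆ F) : Gd K psi col G :=
  ⟨fun u hu => h.refl u (hG hu), fun u hu v hv w hw => h.coc u (hG hu) v (hG hv) w (hG hw),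
    fun a ha ka u hu v hv => h.colf a (hG ha) ka u (hG hu) v (hG hv),
    fun a ha b hb ka kb u hu => h.cole a (hG ha) b (hG hb) ka kb u (hG hu),
    fun a ha b hb c hc => h.two a (hG ha) b (hG hb) c (hG hc)⟩

theorem gd_of_good {F : Finset V} (h : Good K psi col F) : Gd K psi col F :=
  ⟨h.refl, h.coc, h.colf, h.cole, h.two⟩

theorem Gd.exists_nonK {F : Finset V} (h : Gd K psi col F) (hc : 2 < F.card) :
    ∃ u ∈ F, ¬ K u := by
  classical
  by_contra hcon
  push Not at hcon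
  obtain ⟨a, ha, b, hb, c, hc', hab, hac, hbc⟩ := Finset.two_lt_card.1 hc
  rcases h.two a ha b hb c hc' (hcon a ha) (hcon b hb) (hcon c hc') with h1 | h1 | h1
  · exact hab h1
  · exact hac h1
  · exact hbc h1

/-- a function on the vertices compatible with the transition functions on all faces -/
def FlatA (K : V → Prop) (psi : V → V → Fin 3 → Fin 3) (g : V → Fin 3)
    (A : Set (Finset V)) : Prop :=
  ∀ F ∈ A, ∀ u ∈ F, ∀ v ∈ F, ¬ K u → ¬ K v → g v = psi u v (g u)

/-- There is an edge with both ends in `K`. -/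
def KE (K : V → Prop) (A : Set (Finset V)) : Prop :=
  ∃ F ∈ A, ∃ a ∈ F, ∃ b ∈ F, K a ∧ K b ∧ a ≠ b

theorem dich {A : Set (Finset V)} (h : Con 4 A) (hg : ∀ F ∈ A, Gd K psi col F) {g : V → Fin 3}
    (hfl : FlatA K psi g A) {a : V} (ha : K a) {F0 : Finset V} (hF0 : F0 ∈ A) (haF0 : a ∈ F0)
    {w0 : V} (hw0 : w0 ∈ F0) (hw0K : ¬ K w0) (he : g w0 = col a w0) :
    ∀ F ∈ A, a ∈ F → ∀ w ∈ F, ¬ K w → g w = col a w := by
  have key : ∀ F ∈ A, a ∈ F → ∀ u ∈ F, ¬ K u → g u = col a u → ∀ v ∈ F, ¬ K v →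
      g v = col a v := by
    intro F hF haF u hu huK h1 v hv hvK
    rw [hfl F hF u hu v hv huK hvK, h1, (hg F hF).colf a haF ha u hu v hv huK hvK]
  intro F hF haF
  obtain ⟨F1, hF1, h01, hF1c⟩ := h.pure F0 hF0
  obtain ⟨F2, hF2, h02, hF2c⟩ := h.pure F hF
  have hch := h.chain {a} F1 F2 hF1 hF2 hF1c hF2c (Finset.singleton_subset_iff.2 (h01 haF0))
    (Finset.singleton_subset_iff.2 (h02 haF))
  have hP : ∀ G, Relation.ReflTransGen (Adj A 4 {a}) F1 G → ∀ w ∈ G, ¬ K w →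
      g w = col a w := by
    intro G hG
    induction hG with
    | refl => exact key F1 hF1 (h01 haF0) w0 (h01 hw0) hw0K he
    | tail _ h2 ih =>
      obtain ⟨g1, g2, g3, g4, T, h5, h6, h7, h8⟩ := h2
      obtain ⟨u, hu, huK⟩ := ((hg _ g1).mono h5).exists_nonK (by omega)
      have haT : a ∈ T := h7 (Finset.mem_singleton_self a)
      exact key _ g2 (h6 haT) u (h6 hu) huK (ih u (h5 hu) huK)
  exact fun w hw hwK => hP F2 hch w (h02 hw) hwK

theorem agree {C : Set (Finset V)} (h : Con 3 C) (hg : ∀ F ∈ C, Gd K psi col F)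
    {g g' : V → Fin 3} (hfl : FlatA K psi g C) (hfl' : FlatA K psi g' C) {F0 : Finset V}
    (hF0 : F0 ∈ C) {w0 : V} (hw0 : w0 ∈ F0) (hw0K : ¬ K w0) (he : g w0 = g' w0)
    (hK : ∀ F ∈ C, (∃ a ∈ F, ∃ b ∈ F, K a ∧ K b ∧ a ≠ b) → ∀ w ∈ F, ¬ K w → g w = g' w) :
    ∀ F ∈ C, ∀ w ∈ F, ¬ K w → g w = g' w := by
  classical
  have key : ∀ F ∈ C, ∀ u ∈ F, ¬ K u → g u = g' u → ∀ v ∈ F, ¬ K v → g v = g' v := by
    intro F hF u hu huK h1 v hv hvK
    rw [hfl F hF u hu v hv huK hvK, h1, hfl' F hF u hu v hv huK hvK]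
  intro F hF
  obtain ⟨F1, hF1, h01, hF1c⟩ := h.pure F0 hF0
  obtain ⟨F2, hF2, h02, hF2c⟩ := h.pure F hF
  have hch := h.chain ∅ F1 F2 hF1 hF2 hF1c hF2c (Finset.empty_subset _) (Finset.empty_subset _)
  have hP : ∀ G, Relation.ReflTransGen (Adj C 3 ∅) F1 G → ∀ w ∈ G, ¬ K w → g w = g' w := by
    intro G hG
    induction hG with
    | refl => exact key F1 hF1 w0 (h01 hw0) hw0K he
    | tail _ h2 ih =>
      obtain ⟨g1, g2, g3, g4, T, h5, h6, h7, h8⟩ := h2
      obtain ⟨x, y, hxy, hT⟩ := Finset.card_eq_two.1 (by omega : T.card = 2)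
      have hxT : x ∈ T := by rw [hT]; simp
      have hyT : y ∈ T := by rw [hT]; simp
      by_cases hxK : K x
      · by_cases hyK : K y
        · exact hK _ g2 ⟨x, h6 hxT, y, h6 hyT, hxK, hyK, hxy⟩
        · exact key _ g2 y (h6 hyT) hyK (ih y (h5 hyT) hyK)
      · exact key _ g2 x (h6 hxT) hxK (ih x (h5 hxT) hxK)
  exact fun w hw hwK => hP F2 hch w (h02 hw) hwK

theorem glueF {A B : Set (Finset V)} (hAd : ∀ F ∈ A, ∀ G ⊆ F, G ∈ A)
    (hBd : ∀ F ∈ B, ∀ G ⊆ F, G ∈ B) {g g' : V → Fin 3} (hA : FlatA K psi g A)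
    (hB : FlatA K psi g' B) (hC : ∀ F ∈ A ∩ B, ∀ w ∈ F, ¬ K w → g w = g' w) :
    ∃ g2, FlatA K psi g2 (A ∪ B) ∧ (∀ F ∈ A, ∀ w ∈ F, ¬ K w → g2 w = g w) ∧
      (∀ F ∈ B, ∀ w ∈ F, ¬ K w → g2 w = g' w) := by
  classical
  let g2 : V → Fin 3 := fun w => if ∃ F ∈ A, w ∈ F then g w else g' w
  have e1 : ∀ F ∈ A, ∀ w ∈ F, ¬ K w → g2 w = g w := by
    intro F hF w hw _
    have : ∃ F ∈ A, w ∈ F := ⟨F, hF, hw⟩
    simp only [g2, if_pos this]
  have e2 : ∀ F ∈ B, ∀ w ∈ F, ¬ K w → g2 w = g' w := by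
    intro F hF w hw hwK
    by_cases hex : ∃ F ∈ A, w ∈ F
    · simp only [g2, if_pos hex]
      obtain ⟨F', hF', hw'⟩ := hex
      exact hC {w} ⟨hAd F' hF' _ (Finset.singleton_subset_iff.2 hw'),
        hBd F hF _ (Finset.singleton_subset_iff.2 hw)⟩ w (Finset.mem_singleton_self w) hwK
    · simp only [g2, if_neg hex]
  refine ⟨g2, ?_, e1, e2⟩
  rintro F (hF | hF) u hu v hv huK hvK
  · rw [e1 F hF u hu huK, e1 F hF v hv hvK]
    exact hA F hF u hu v hv huK hvK
  · rw [e2 F hF u hu huK, e2 F hF v hv hvK]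
    exact hB F hF u hu v hv huK hvK

/-- Prescribed values, when there is no edge with both ends in `K`. -/
def Pr (K : V → Prop) (psi : V → V → Fin 3 → Fin 3) (A : Set (Finset V)) : Prop :=
  ∀ F ∈ A, ∀ u ∈ F, ¬ K u → ∀ c, ∃ g, FlatA K psi g A ∧ g u = c

theorem exists_u0 {C : Set (Finset V)} (h : Con 3 C) (hg : ∀ F ∈ C, Gd K psi col F) :
    ∃ F ∈ C, ∃ u ∈ F, ¬ K u := by
  obtain ⟨F, hF, hc⟩ := h.facet
  obtain ⟨u, hu, huK⟩ := (hg F hF).exists_nonK (by omega)
  exact ⟨F, hF, u, hu, huK⟩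

theorem FlatA.mono {A B : Set (Finset V)} {g : V → Fin 3} (h : FlatA K psi g B) (hAB : A ⊆ B) :
    FlatA K psi g A := fun F hF => h F (hAB hF)

theorem presc {n : ℕ} {A : Set (Finset V)} (h : Con n A) : n = 4 →
    (∀ F ∈ A, Gd K psi col F) → ¬ KE K A → Pr K psi A := by
  induction h with
  | simplex F =>
    intro _ hg _ F' hF' u hu huK c
    have hgF := hg F (Finset.Subset.refl F)
    refine ⟨fun w => psi u w c, ?_, hgF.refl u (hF' hu) huK c⟩
    intro G hG v hv w hw hvK hwK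
    exact (hgF.coc u (hF' hu) v (hG hv) w (hG hw) huK hvK hwK c).symm
  | union n A B hA hB hC ihA ihB _ =>
    intro hn hg hno
    obtain rfl : n = 3 := by omega
    have iA := ihA rfl (fun F hF => hg F (Or.inl hF)) (fun ⟨F, hF, h⟩ => hno ⟨F, Or.inl hF, h⟩)
    have iB := ihB rfl (fun F hF => hg F (Or.inr hF)) (fun ⟨F, hF, h⟩ => hno ⟨F, Or.inr hF, h⟩)
    have cross : ∀ A B : Set (Finset V), Con 4 A → Con 4 B → Con 3 (A ∩ B) →
        (∀ F ∈ A, Gd K psi col F) → (¬ KE K A) → Pr K psi A → Pr K psi B →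
        ∀ F ∈ A, ∀ u ∈ F, ¬ K u → ∀ c, ∃ g, FlatA K psi g (A ∪ B) ∧ g u = c := by
      intro A B hA hB hC hg hno pA pB F hF u hu huK c
      have hgC : ∀ F ∈ A ∩ B, Gd K psi col F := fun F hF => hg F hF.1
      obtain ⟨F0, hF0, u0, hu0, hu0K⟩ := exists_u0 hC hgC
      obtain ⟨g, hfl, hgu⟩ := pA F hF u hu huK c
      obtain ⟨g', hfl', hgu'⟩ := pB F0 hF0.2 u0 hu0 hu0K (g u0)
      have hag := agree hC hgC (hfl.mono Set.inter_subset_left) (hfl'.mono Set.inter_subset_right)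
        hF0 hu0 hu0K hgu'.symm (fun F hF hK => absurd ⟨F, hF.1, hK⟩ hno)
      obtain ⟨g2, h1, h2, h3⟩ := glueF hA.down hB.down hfl hfl' hag
      exact ⟨g2, h1, (h2 F hF u hu huK).trans hgu⟩
    intro F hF u hu huK c
    rcases hF with hF | hF
    · exact cross A B hA hB hC (fun F hF => hg F (Or.inl hF))
        (fun ⟨F, hF, h⟩ => hno ⟨F, Or.inl hF, h⟩) iA iB F hF u hu huK c
    · have := cross B A hB hA (by rw [Set.inter_comm]; exact hC) (fun F hF => hg F (Or.inr hF))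
        (fun ⟨F, hF, h⟩ => hno ⟨F, Or.inr hF, h⟩) iB iA F hF u hu huK c
      rw [Set.union_comm] at this
      exact this

/-- The conclusion of the main dichotomy. -/
def Md (K : V → Prop) (psi : V → V → Fin 3 → Fin 3) (col : V → V → Fin 3)
    (A : Set (Finset V)) : Prop :=
  ∃ g, FlatA K psi g A ∧ ∃ a b, K a ∧ K b ∧ a ≠ b ∧ (∃ F ∈ A, a ∈ F) ∧ (∃ F ∈ A, b ∈ F) ∧
    (∀ F ∈ A, a ∈ F → ∀ w ∈ F, ¬ K w → g w = col a w) ∧
    (∀ F ∈ A, b ∈ F → ∀ w ∈ F, ¬ K w → g w = col b w)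

/-- persistence -/
theorem pers {A B : Set (Finset V)} (hA : Con 4 A) (hAB : Con 4 (A ∪ B))
    (hg : ∀ F ∈ A ∪ B, Gd K psi col F) {g g2 : V → Fin 3} (hfl : FlatA K psi g2 (A ∪ B))
    (h2 : ∀ F ∈ A, ∀ w ∈ F, ¬ K w → g2 w = g w) {a : V} (ha : K a) (hex : ∃ F ∈ A, a ∈ F)
    (hal : ∀ F ∈ A, a ∈ F → ∀ w ∈ F, ¬ K w → g w = col a w) :
    ∀ F ∈ A ∪ B, a ∈ F → ∀ w ∈ F, ¬ K w → g2 w = col a w := by
  obtain ⟨F, hF, haF⟩ := hex
  obtain ⟨F1, hF1, h01, hF1c⟩ := hA.pure F hF
  obtain ⟨u, hu, huK⟩ := (hg F1 (Or.inl hF1)).exists_nonK (by omega)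
  exact dich hAB hg hfl ha (Or.inl hF1) (h01 haF) hu huK
    ((h2 F1 hF1 u hu huK).trans (hal F1 hF1 (h01 haF) u hu huK))

theorem main_md {n : ℕ} {A : Set (Finset V)}
    (hK : ∀ a b c d, K a → K b → K c → K d → a = b ∨ a = c ∨ a = d ∨ b = c ∨ b = d ∨ c = d)
    (h : Con n A) : n = 4 → (∀ F ∈ A, Gd K psi col F) → KE K A → Md K psi col A := by
  induction h with
  | simplex F =>
    intro hn hg hKE
    have hgF := hg F (Finset.Subset.refl F)
    obtain ⟨F', hF', a, ha, b, hb, haK, hbK, hab⟩ := hKE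
    obtain ⟨u, hu, huK⟩ := hgF.exists_nonK (by omega)
    refine ⟨fun w => psi u w (col a u), ?_, a, b, haK, hbK, hab,
      ⟨F, Finset.Subset.refl F, hF' ha⟩, ⟨F, Finset.Subset.refl F, hF' hb⟩, ?_, ?_⟩
    · intro G hG v hv w hw hvK hwK
      exact (hgF.coc u hu v (hG hv) w (hG hw) huK hvK hwK _).symm
    · intro G hG _ w hw hwK
      exact hgF.colf a (hF' ha) haK u hu w (hG hw) huK hwK
    · intro G hG _ w hw hwK
      show psi u w (col a u) = col b w
      rw [hgF.cole a (hF' ha) b (hF' hb) haK hbK u hu huK]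
      exact hgF.colf b (hF' hb) hbK u hu w (hG hw) huK hwK
  | union n A B hA hB hC ihA ihB _ =>
    intro hn hg hKE
    obtain rfl : n = 3 := by omega
    have iA := ihA rfl (fun F hF => hg F (Or.inl hF))
    have iB := ihB rfl (fun F hF => hg F (Or.inr hF))
    -- only one of the two parts has such an edge
    have one : ∀ A B : Set (Finset V), Con 4 A → Con 4 B → Con 3 (A ∩ B) →
        (∀ F ∈ A ∪ B, Gd K psi col F) → Md K psi col A → (¬ KE K B) → Md K psi col (A ∪ B) := by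
      intro A B hA hB hC hg hMd hno
      have hgC : ∀ F ∈ A ∩ B, Gd K psi col F := fun F hF => hg F (Or.inl hF.1)
      obtain ⟨g, hfl, a, b, haK, hbK, hab, hexa, hexb, hala, halb⟩ := hMd
      obtain ⟨F0, hF0, u0, hu0, hu0K⟩ := exists_u0 hC hgC
      obtain ⟨g', hfl', hgu'⟩ := presc hB rfl (fun F hF => hg F (Or.inr hF)) hno F0 hF0.2 u0 hu0
        hu0K (g u0)
      have hag := agree hC hgC (hfl.mono Set.inter_subset_left) (hfl'.mono Set.inter_subset_right)
        hF0 hu0 hu0K hgu'.symm (fun F hF hK => absurd ⟨F, hF.2, hK⟩ hno)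
      obtain ⟨g2, h1, h2, h3⟩ := glueF hA.down hB.down hfl hfl' hag
      have hAB := Con.union 3 A B hA hB hC
      refine ⟨g2, h1, a, b, haK, hbK, hab, ?_, ?_, pers hA hAB hg h1 h2 haK hexa hala,
        pers hA hAB hg h1 h2 hbK hexb halb⟩
      · obtain ⟨F, hF, h⟩ := hexa
        exact ⟨F, Or.inl hF, h⟩
      · obtain ⟨F, hF, h⟩ := hexb
        exact ⟨F, Or.inl hF, h⟩
    by_cases kA : KE K A
    · by_cases kB : KE K B
      · obtain ⟨g, hfl, a, b, haK, hbK, hab, hexa, hexb, hala, halb⟩ := iA kA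
        obtain ⟨g', hfl', c, d, hcK, hdK, hcd, hexc, hexd, halc, hald⟩ := iB kB
        have hgC : ∀ F ∈ A ∩ B, Gd K psi col F := fun F hF => hg F (Or.inl hF.1)
        -- the values on the faces with an edge in `K`
        have hcol : ∀ (D : Set (Finset V)) (g : V → Fin 3) (a b : V), K a → K b → a ≠ b →
            (∀ F ∈ D, Gd K psi col F) →
            (∀ F ∈ D, a ∈ F → ∀ w ∈ F, ¬ K w → g w = col a w) →
            (∀ F ∈ D, b ∈ F → ∀ w ∈ F, ¬ K w → g w = col b w) →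
            ∀ F ∈ D, ∀ x ∈ F, ∀ y ∈ F, K x → K y → x ≠ y → ∀ w ∈ F, ¬ K w →
              g w = col x w := by
          intro D g a b haK hbK hab hgD hala halb F hF x hx y hy hxK hyK hxy w hw hwK
          have hxy' := (hgD F hF).cole x hx y hy hxK hyK w hw hwK
          rcases hK a b x y haK hbK hxK hyK with e | e | e | e | e | e
          · exact absurd e hab
          · subst e; exact hala F hF hx w hw hwK
          · subst e; rw [hxy']; exact hala F hF hy w hw hwK
          · subst e; exact halb F hF hx w hw hwK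
          · subst e; rw [hxy']; exact halb F hF hy w hw hwK
          · exact absurd e hxy
        have hQ : ∀ F ∈ A ∩ B, (∃ a ∈ F, ∃ b ∈ F, K a ∧ K b ∧ a ≠ b) → ∀ w ∈ F, ¬ K w →
            g w = g' w := by
          rintro F hF ⟨x, hx, y, hy, hxK, hyK, hxy⟩ w hw hwK
          rw [hcol A g a b haK hbK hab (fun F hF => hg F (Or.inl hF)) hala halb F hF.1 x hx y hy
            hxK hyK hxy w hw hwK, hcol B g' c d hcK hdK hcd (fun F hF => hg F (Or.inr hF)) halc
            hald F hF.2 x hx y hy hxK hyK hxy w hw hwK]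
        -- a common vertex in `K`
        have hcom : ∃ e, K e ∧ (∃ F ∈ A, e ∈ F) ∧ (∃ F ∈ B, e ∈ F) ∧
            (∀ F ∈ A, e ∈ F → ∀ w ∈ F, ¬ K w → g w = col e w) ∧
            (∀ F ∈ B, e ∈ F → ∀ w ∈ F, ¬ K w → g' w = col e w) := by
          rcases hK a b c d haK hbK hcK hdK with e | e | e | e | e | e
          · exact absurd e hab
          · subst e; exact ⟨a, haK, hexa, hexc, hala, halc⟩
          · subst e; exact ⟨a, haK, hexa, hexd, hala, hald⟩
          · subst e; exact ⟨b, hbK, hexb, hexc, halb, halc⟩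
          · subst e; exact ⟨b, hbK, hexb, hexd, halb, hald⟩
          · exact absurd e hcd
        obtain ⟨e, heK, ⟨Fa, hFa, heFa⟩, ⟨Fb, hFb, heFb⟩, hale, hale'⟩ := hcom
        have heC : ({e} : Finset V) ∈ A ∩ B :=
          ⟨hA.down Fa hFa _ (Finset.singleton_subset_iff.2 heFa),
            hB.down Fb hFb _ (Finset.singleton_subset_iff.2 heFb)⟩
        obtain ⟨F0, hF0, he0, hF0c⟩ := hC.pure _ heC
        have heF0 : e ∈ F0 := he0 (Finset.mem_singleton_self e)
        obtain ⟨u0, hu0, hu0K⟩ := (hgC F0 hF0).exists_nonK (by omega)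
        have hag := agree hC hgC (hfl.mono Set.inter_subset_left)
          (hfl'.mono Set.inter_subset_right) hF0 hu0 hu0K
          ((hale F0 hF0.1 heF0 u0 hu0 hu0K).trans (hale' F0 hF0.2 heF0 u0 hu0 hu0K).symm) hQ
        obtain ⟨g2, h1, h2, h3⟩ := glueF hA.down hB.down hfl hfl' hag
        have hAB := Con.union 3 A B hA hB hC
        refine ⟨g2, h1, a, b, haK, hbK, hab, ?_, ?_, pers hA hAB hg h1 h2 haK hexa hala,
          pers hA hAB hg h1 h2 hbK hexb halb⟩
        · obtain ⟨F, hF, h⟩ := hexa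
          exact ⟨F, Or.inl hF, h⟩
        · obtain ⟨F, hF, h⟩ := hexb
          exact ⟨F, Or.inl hF, h⟩
      · exact one A B hA hB hC hg (iA kA) kB
    · have kB : KE K B := by
        obtain ⟨F, hF | hF, h⟩ := hKE
        · exact absurd ⟨F, hF, h⟩ kA
        · exact ⟨F, hF, h⟩
      rw [Set.union_comm]
      exact one B A hB hA (by rw [Set.inter_comm]; exact hC)
        (by rw [Set.union_comm]; exact hg) (iB kB) kA

end flat

/-- no constructible complex contains the special ball -/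
theorem no_con {A : Set (Finset ℕ)} (hA : Con 4 A)
    (h4 : ∀ F ∈ A, F.card = 4 → (∃ m ∈ Bm, dec m = F) ∨ ∀ n ∈ F, n < 4 ∨ 64 ≤ n)
    (hB : ∀ m ∈ Bm, dec m ∈ A) : False := by
  have hgood : ∀ F ∈ A, Gd KK psi col F := by
    intro F hF
    obtain ⟨G, hG, hFG, hGc⟩ := hA.pure F hF
    refine Gd.mono ?_ hFG
    rcases h4 G hG hGc with ⟨m, hm, rfl⟩ | h2
    · exact gd_of_good (good_dec hm)
    · exact gd_of_good (good_old hGc h2)
  obtain ⟨g, hg, -⟩ := main_md (K := KK) (psi := psi) (col := col) (by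
    intro a b c d ha hb hc hd
    unfold KK at ha hb hc hd
    omega) hA rfl hgood ⟨dec 3152, hB 3152 (by decide), 10, by decide, 11, by decide,
      by decide, by decide, by decide⟩
  have key : ∀ m ∈ Bm, ∀ u ∈ dec m, ∀ v ∈ dec m, ¬ KK u → ¬ KK v → g v = psi u v (g u) :=
    fun m hm => hg (dec m) (hB m hm)
  have h1 := key 23 (by decide) 0 (by decide) 1 (by decide) (by decide) (by decide)
  have h2 := key 23 (by decide) 0 (by decide) 2 (by decide) (by decide) (by decide)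
  have h3 := key 1068 (by decide) 2 (by decide) 5 (by decide) (by decide) (by decide)
  have h5 := key 2242 (by decide) 1 (by decide) 7 (by decide) (by decide) (by decide)
  have h6 := key 1073 (by decide) 0 (by decide) 5 (by decide) (by decide) (by decide)
  have h7 := key 1185 (by decide) 5 (by decide) 7 (by decide) (by decide) (by decide)
  clear key hg h4 hB hgood hA
  generalize g 0 = a0 at *
  generalize g 1 = a1 at *
  generalize g 2 = a2 at *
  generalize g 5 = a5 at *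
  generalize g 7 = a7 at *
  revert a0 a1 a2 a5 a7
  decide

end Pool.Agent.Y769.NC
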