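import Mathlib
import Pool.Agent.Helper175.NS.Main

/-!
# Stellar equivalence

The library shows that the replacement of a simplex by the special ball is a chain of stellar
subdivisions and their inverses; here this is recorded as a stellar equivalence of complexes.
-/

set_option autoImplicit false

namespace Pool.Agent.Y769.NC

open Finset Pool.Agent.Helper175.NS

/-- `Γ` is the stellar subdivision of `Δ` at the nonempty face `ρ` with the new vertex `v`: its
faces are the faces of `Δ` not containing `ρ`, and the sets `insert v H` where `H` does not contain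
`ρ` and lies in a face of `Δ` containing `ρ`. -/
def IsStellar {V : Type} (Δ Γ : Cx V) (ρ : Finset V) (v : V) : Prop :=
  ρ.Nonempty ∧ ρ ∈ Δ.faces ∧ (∀ F ∈ Δ.faces, v ∉ F) ∧
    ∀ G, G ∈ Γ.faces ↔ (G ∈ Δ.faces ∧ ¬ ρ ⊆ G) ∨
      ∃ H, ¬ ρ ⊆ H ∧ (∃ F ∈ Δ.faces, H ⊆ F ∧ ρ ⊆ F) ∧ ∀ u, u ∈ G ↔ u = v ∨ u ∈ H

/-- Stellar equivalence: the equivalence relation generated by isomorphisms and stellar
subdivisions. -/
inductive StEq : ∀ {V W : Type}, Cx V → Cx W → Prop
  | iso {V W : Type} (Δ : Cx V) (Γ : Cx W) (f : V → W)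
      (hf : Set.InjOn f {v | ∃ F ∈ Δ.faces, v ∈ F})
      (h : ∀ G, G ∈ Γ.faces ↔ ∃ F ∈ Δ.faces, ∀ w, w ∈ G ↔ ∃ v ∈ F, f v = w) : StEq Δ Γ
  | sub {V : Type} (Δ Γ : Cx V) (ρ : Finset V) (v : V) (h : IsStellar Δ Γ ρ v) : StEq Δ Γ
  | symm {V W : Type} (Δ : Cx V) (Γ : Cx W) (h : StEq Δ Γ) : StEq Γ Δ
  | trans {U V W : Type} (Δ : Cx U) (Γ : Cx V) (Θ : Cx W) (h : StEq Δ Γ) (h' : StEq Γ Θ) :
      StEq Δ Θ

theorem StEq.rfl' {V : Type} (Δ : Cx V) : StEq Δ Δ := by
  refine StEq.iso Δ Δ id (Set.injOn_id _) ?_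
  intro G
  constructor
  · intro hG
    exact ⟨G, hG, fun w => ⟨fun h => ⟨w, h, rfl⟩, fun ⟨v, hv, e⟩ => e ▸ hv⟩⟩
  · rintro ⟨F, hF, h⟩
    have e : G = F := by
      ext w
      rw [h w]
      exact ⟨fun ⟨v, hv, e⟩ => e ▸ hv, fun h => ⟨w, h, rfl⟩⟩
    rw [e]
    exact hF

/-- complexes with the same faces -/
theorem StEq.of_eq {V : Type} {Δ Γ : Cx V} (h : ∀ G, G ∈ Γ.faces ↔ G ∈ Δ.faces) : StEq Δ Γ := by
  have e : Γ = Δ := by
    cases Γ
    cases Δ
    congr
    ext G
    exact h G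
  rw [e]
  exact StEq.rfl' Δ

theorem st_star {V : Type} [DecidableEq V] (L : Finset (Finset V)) (ρ : Finset V) (v : V)
    (hρ : ρ.Nonempty) (hv : ∀ F ∈ L, v ∉ F) (hvρ : v ∉ ρ) :
    StEq (gen L) (gen (star L ρ v)) := by
  by_cases hex : ∃ F ∈ L, ρ ⊆ F
  · refine StEq.sub _ _ ρ v ⟨hρ, mem_gen.2 hex, ?_, ?_⟩
    · intro F hF
      obtain ⟨A, hA, hFA⟩ := mem_gen.1 hF
      exact fun h => hv A hA (hFA h)
    · intro G
      constructor
      · intro hG
        obtain ⟨A, hA, hGA⟩ := mem_gen.1 hG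
        rcases mem_star.1 hA with ⟨h1, h2⟩ | ⟨F, h1, h2, z, hz, rfl⟩
        · exact Or.inl ⟨mem_gen.2 ⟨A, h1, hGA⟩, fun h => h2 (h.trans hGA)⟩
        · by_cases hvG : v ∈ G
          · right
            refine ⟨G.erase v, ?_, ⟨F, mem_gen.2 ⟨F, h1, Subset.refl F⟩, ?_, h2⟩, ?_⟩
            · intro h3
              have h4 := hGA (mem_of_mem_erase (h3 hz))
              rw [mem_insert, mem_erase] at h4
              rcases h4 with h4 | h4
              · exact hvρ (h4 ▸ hz)
              · exact h4.1 rfl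
            · intro w hw
              have h4 := hGA (mem_of_mem_erase hw)
              rw [mem_insert, mem_erase] at h4
              rcases h4 with h4 | h4
              · exact absurd h4 (ne_of_mem_erase hw)
              · exact h4.2
            · intro u
              rw [mem_erase]
              constructor
              · intro hu
                by_cases e : u = v
                · exact Or.inl e
                · exact Or.inr ⟨e, hu⟩
              · rintro (e | ⟨_, h⟩)
                · rw [e]; exact hvG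
                · exact h
          · left
            have hGF : G ⊆ F.erase z := by
              intro w hw
              rcases mem_insert.1 (hGA hw) with h4 | h4
              · exact absurd (h4 ▸ hw) hvG
              · exact h4
            refine ⟨mem_gen.2 ⟨F, h1, hGF.trans (erase_subset z F)⟩, ?_⟩
            intro h3
            exact (mem_erase.1 (hGF (h3 hz))).1 rfl
      · rintro (⟨h1, h2⟩ | ⟨H, h1, ⟨F', hF', h3, h4⟩, h5⟩)
        · obtain ⟨F, hF, hGF⟩ := mem_gen.1 h1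
          by_cases h3 : ρ ⊆ F
          · obtain ⟨z, hz, hzG⟩ := not_subset.1 h2
            refine mem_gen.2 ⟨insert v (F.erase z), mem_star.2 (Or.inr ⟨F, hF, h3, z, hz, rfl⟩),
              ?_⟩
            intro w hw
            rw [mem_insert, mem_erase]
            right
            refine ⟨?_, hGF hw⟩
            rintro rfl
            exact hzG hw
          · exact mem_gen.2 ⟨F, mem_star.2 (Or.inl ⟨hF, h3⟩), hGF⟩
        · obtain ⟨F, hF, hF'F⟩ := mem_gen.1 hF'
          obtain ⟨z, hz, hzH⟩ := not_subset.1 h1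
          refine mem_gen.2 ⟨insert v (F.erase z),
            mem_star.2 (Or.inr ⟨F, hF, h4.trans hF'F, z, hz, rfl⟩), ?_⟩
          intro w hw
          rw [mem_insert, mem_erase]
          rcases (h5 w).1 hw with h6 | h6
          · exact Or.inl h6
          · right
            refine ⟨?_, hF'F (h3 h6)⟩
            rintro rfl
            exact hzH h6
  · push Not at hex
    have e : star L ρ v = L := by
      ext A
      rw [mem_star]
      constructor
      · rintro (⟨h1, _⟩ | ⟨F, h1, h2, _⟩)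
        · exact h1
        · exact absurd h2 (hex F h1)
      · intro h1
        exact Or.inl ⟨h1, hex A h1⟩
    rw [e]
    exact StEq.rfl' _

theorem st_relabel {V W : Type} [DecidableEq V] [DecidableEq W] (L : Finset (Finset V))
    (f : V → W) (S : Finset V) (hS : ∀ F ∈ L, F ⊆ S) (hf : Set.InjOn f S) :
    StEq (gen L) (gen (L.image (fun F => F.image f))) := by
  refine StEq.iso _ _ f (hf.mono ?_) ?_
  · rintro v ⟨F, hF, hv⟩
    obtain ⟨A, hA, hFA⟩ := mem_gen.1 hF
    exact mem_coe.2 (hS A hA (hFA hv))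
  · intro G
    constructor
    · intro hG
      obtain ⟨A', hA', hGA⟩ := mem_gen.1 hG
      obtain ⟨A, hA, rfl⟩ := mem_image.1 hA'
      refine ⟨A.filter (fun v => f v ∈ G), mem_gen.2 ⟨A, hA, filter_subset _ _⟩, ?_⟩
      intro w
      constructor
      · intro hw
        obtain ⟨v, hv, e⟩ := mem_image.1 (hGA hw)
        exact ⟨v, mem_filter.2 ⟨hv, e ▸ hw⟩, e⟩
      · rintro ⟨v, hv, e⟩
        rw [← e]
        exact (mem_filter.1 hv).2
    · rintro ⟨F, hF, h⟩
      obtain ⟨A, hA, hFA⟩ := mem_gen.1 hF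
      refine mem_gen.2 ⟨A.image f, mem_image.2 ⟨A, hA, rfl⟩, ?_⟩
      intro w hw
      obtain ⟨v, hv, e⟩ := (h w).1 hw
      exact mem_image.2 ⟨v, hFA hv, e⟩

theorem st_step (L : Finset (Finset ℕ)) (hL : Old L) (M M' : Finset (Finset ℕ))
    (ρ ρ' : Finset ℕ) (hne : ρ.Nonempty) (hne' : ρ'.Nonempty)
    (hρ : ∀ n ∈ ρ, n < 13) (hρ' : ∀ n ∈ ρ', n < 13)
    (h : ρ = s4 ∨ ∃ n ∈ ρ, 4 ≤ n) (h' : ρ' = s4 ∨ ∃ n ∈ ρ', 4 ≤ n)
    (hM : ∀ β ∈ M, 13 ∉ β) (hM' : ∀ β ∈ M', 13 ∉ β)
    (heq : star M ρ 13 = star M' ρ' 13) :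
    StEq (gen (Sub L M)) (gen (Sub L M')) := by
  have key : ∀ N : Finset (Finset ℕ), (∀ β ∈ N, 13 ∉ β) → ∀ F ∈ Sub L N, 13 ∉ F := by
    intro N hN F hF
    rcases mem_Sub.1 hF with ⟨h1, _⟩ | ⟨F', h1, _, β, h2, rfl⟩
    · exact hL.not_mem h1 (by omega) (by omega)
    · rw [mem_union, not_or]
      exact ⟨hN β h2, hL.not_mem_sdiff h1 (by omega)⟩
  have e1 := st_star (Sub L M) ρ 13 hne (key M hM) (fun h => by have := hρ 13 h; omega)
  have e2 := st_star (Sub L M') ρ' 13 hne' (key M' hM')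
    (fun h => by have := hρ' 13 h; omega)
  rw [star_Sub L M hL ρ 13 (fun n hn => by have := hρ n hn; omega) h] at e1
  rw [star_Sub L M' hL ρ' 13 (fun n hn => by have := hρ' n hn; omega) h', ← heq] at e2
  exact StEq.trans _ _ _ e1 (StEq.symm _ _ e2)

theorem st_chain (L : Finset (Finset ℕ)) (hL : Old L) (ms : List (ℕ × ℕ)) :
    ∀ (l t : List ℕ), (∀ m ∈ l, m < 8192) → chainB l ms t = true →
      StEq (gen (Sub L (decL l))) (gen (Sub L (decL t))) := by
  induction ms with
  | nil =>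
    intro l t _ h
    rw [chainB] at h
    rw [decL_of_sameB h]
    exact StEq.rfl' _
  | cons r ms ih =>
    intro l t hl h
    rw [chainB, Bool.and_eq_true] at h
    obtain ⟨h1, h2⟩ := h
    simp only [okStep, Bool.and_eq_true, Bool.or_eq_true, decide_eq_true_eq, List.all_eq_true]
      at h1
    obtain ⟨⟨⟨⟨⟨h3, h4⟩, h5⟩, h6⟩, h7⟩, h8⟩ := h1
    have e1 := ih (applyB l r.1 r.2) t h4 h2
    have h9 : dec r.1 = s4 ∨ ∃ n ∈ dec r.1, 4 ≤ n := by
      rcases h7 with h7 | h7
      · left; rw [h7]; exact dec_15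
      · right; exact exists_big h5 h7
    have h10 := exists_big h6 h8
    have hne : (dec r.1).Nonempty := by
      rcases h9 with h9 | ⟨n, hn, _⟩
      · rw [h9]; exact ⟨0, by decide⟩
      · exact ⟨n, hn⟩
    have hne' : (dec r.2).Nonempty := by
      obtain ⟨n, hn, _⟩ := h10
      exact ⟨n, hn⟩
    have h13 : ∀ l' : List ℕ, (∀ m ∈ l', m < 8192) → ∀ β ∈ decL l', 13 ∉ β := by
      intro l' hl' β hβ hmem
      obtain ⟨m, hm, rfl⟩ := mem_decL.1 hβ
      have := dec_lt (hl' m hm) 13 hmem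
      omega
    have heq : star (decL l) (dec r.1) 13 = star (decL (applyB l r.1 r.2)) (dec r.2) 13 := by
      rw [← decL_starB l r.1 h5, ← decL_starB _ r.2 h6]
      exact decL_of_sameB h3
    have e2 := st_step L hL (decL l) (decL (applyB l r.1 r.2)) (dec r.1) (dec r.2) hne hne'
      (dec_lt h5) (dec_lt h6) h9 (Or.inr h10) (h13 l hl) (h13 _ h4) heq
    exact StEq.trans _ _ _ e2 e1

theorem st_sub (L : Finset (Finset ℕ)) (hL : Old L) :
    StEq (gen L) (gen (Sub L (decL Bm))) := by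
  have e := st_chain L hL moves [15] Bm (by decide) chain_ok
  have h1 : decL [15] = {s4} := by
    rw [← dec_15]; rfl
  rw [h1, Sub_self] at e
  exact e

end Pool.Agent.Y769.NC
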