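import Mathlib
import Pool.Agent.Y769.NC.Cstr
import Pool.Agent.Y769.NC.Stel

/-!
# Nonconstructible triangulations of every space of dimension at least three
-/

set_option autoImplicit false

namespace Pool.Agent.Y769.NC

open Finset Pool.Agent.Helper175.NS

/-- A finite simplicial complex is constructible if it is a simplex or the union of two
constructible complexes of the same dimension whose intersection is constructible of dimension one
less. -/
def Constructible {V : Type} (Δ : Cx V) : Prop := ∃ n, Con n {F | F ∈ Δ.faces}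

/-- Shellability in the sense of Björner and Wachs, for complexes which need not be pure: the
facets can be listed as `l` so that for every `i > 0` the intersection of the complex generated by
the earlier facets with the complex of all faces of `l[i]` is pure of dimension `dim l[i] - 1`. -/
def NonpureShellable {V : Type} (Δ : Cx V) : Prop :=
  ∃ l : List (Finset V), l.Nodup ∧ (∀ F, F ∈ l ↔ Δ.IsFacet F) ∧
    ∀ (i : ℕ) (hi : i < l.length), 0 < i →
      ∀ G : Finset V, (G ⊆ l[i] ∧ ∃ (j : ℕ) (hj : j < i), G ⊆ l[j]) →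
        ∃ H : Finset V, (H ⊆ l[i] ∧ ∃ (j : ℕ) (hj : j < i), H ⊆ l[j]) ∧ G ⊆ H ∧
          H.card + 1 = (l[i]).card

open Classical in
/-- The subcomplex generated by the faces of maximal dimension. -/
noncomputable def top {V : Type} (Δ : Cx V) : Cx V where
  faces := Δ.faces.filter (fun G => ∃ F ∈ Δ.faces, G ⊆ F ∧ ∀ F' ∈ Δ.faces, F'.card ≤ F.card)
  down := by
    intro F hF G hG
    rw [mem_filter] at hF ⊢
    obtain ⟨h1, A, h2, h3, h4⟩ := hF
    exact ⟨Δ.down F h1 G hG, A, h2, hG.trans h3, h4⟩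

theorem mem_top {V : Type} {Δ : Cx V} {G : Finset V} : G ∈ (top Δ).faces ↔
    ∃ F ∈ Δ.faces, G ⊆ F ∧ ∀ F' ∈ Δ.faces, F'.card ≤ F.card := by
  unfold top
  simp only [mem_filter]
  constructor
  · exact fun h => h.2
  · rintro ⟨F, h1, h2, h3⟩
    exact ⟨Δ.down F h1 G h2, F, h1, h2, h3⟩

/-- a constructible complex is pure, so it is its own top part -/
theorem top_of_constructible {V : Type} {Δ : Cx V} (h : Constructible Δ) :
    Constructible (top Δ) := by
  obtain ⟨n, hn⟩ := h
  refine ⟨n, ?_⟩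
  have e : {F | F ∈ (top Δ).faces} = {F | F ∈ Δ.faces} := by
    ext G
    constructor
    · intro hG
      obtain ⟨F, h1, h2, _⟩ := mem_top.1 hG
      exact Δ.down F h1 G h2
    · intro hG
      obtain ⟨F, h1, h2, h3⟩ := hn.pure G hG
      exact mem_top.2 ⟨F, h1, h2, fun F' hF' => h3 ▸ hn.card_le F' hF'⟩
  rw [e]
  exact hn

theorem con_erase {V : Type} [DecidableEq V] (Y : Finset V) (hY : Y.Nonempty) :
    ∀ F : Finset V, Y ⊆ F → Con (F.card - 1) {G | ∃ y ∈ Y, G ⊆ F.erase y} := by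
  induction hY using Finset.Nonempty.cons_induction with
  | singleton y =>
    intro F hF
    have e : {G | ∃ y' ∈ ({y} : Finset V), G ⊆ F.erase y'} = {G | G ⊆ F.erase y} := by
      ext G
      constructor
      · rintro ⟨y', hy', h⟩
        rw [mem_singleton.1 hy'] at h
        exact h
      · intro h
        exact ⟨y, mem_singleton_self y, h⟩
    rw [e, ← card_erase_of_mem (hF (mem_singleton_self y))]
    exact Con.simplex _
  | cons y Y hy hY ih =>
    intro F hF
    rw [cons_eq_insert] at hF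
    have hyF : y ∈ F := hF (mem_insert_self y Y)
    have hYF : Y ⊆ F := (subset_insert y Y).trans hF
    have hYF' : Y ⊆ F.erase y := fun z hz =>
      mem_erase.2 ⟨fun e => hy (e ▸ hz), hYF hz⟩
    obtain ⟨z, hz⟩ := hY
    have hc1 : (F.erase y).card = F.card - 1 := card_erase_of_mem hyF
    have hc2 : 0 < (F.erase y).card := card_pos.2 ⟨z, hYF' hz⟩
    have e1 : F.card - 1 = (F.erase y).card - 1 + 1 := by omega
    have i1 : Con ((F.erase y).card - 1 + 1) {G | G ⊆ F.erase y} := by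
      rw [Nat.sub_add_cancel hc2]
      exact Con.simplex _
    have i2 := ih F hYF
    rw [e1] at i2
    have i3 := ih (F.erase y) hYF'
    have e2 : {G | ∃ y' ∈ Y, G ⊆ (F.erase y).erase y'} =
        {G | G ⊆ F.erase y} ∩ {G | ∃ y' ∈ Y, G ⊆ F.erase y'} := by
      ext G
      constructor
      · rintro ⟨y', hy', h⟩
        refine ⟨h.trans (erase_subset _ _), y', hy', ?_⟩
        rw [erase_right_comm] at h
        exact h.trans (erase_subset _ _)
      · rintro ⟨h1, y', hy', h2⟩
        refine ⟨y', hy', ?_⟩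
        intro w hw
        exact mem_erase.2 ⟨(mem_erase.1 (h2 hw)).1, h1 hw⟩
    rw [e2] at i3
    have e3 : {G | ∃ y' ∈ cons y Y hy, G ⊆ F.erase y'} =
        {G | G ⊆ F.erase y} ∪ {G | ∃ y' ∈ Y, G ⊆ F.erase y'} := by
      ext G
      constructor
      · rintro ⟨y', hy', h⟩
        rw [mem_cons] at hy'
        rcases hy' with rfl | hy'
        · exact Or.inl h
        · exact Or.inr ⟨y', hy', h⟩
      · rintro (h | ⟨y', hy', h⟩)
        · exact ⟨y, mem_cons_self y Y, h⟩
        · exact ⟨y', mem_cons.2 (Or.inr hy'), h⟩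
    rw [e3, e1]
    exact Con.union _ _ _ i1 i2 i3

/-- a shelling gives a constructible complex -/
theorem con_of_shell {V : Type} [DecidableEq V] {n : ℕ} (l : List (Finset V)) :
    Shell l → (∀ F ∈ l, F.card = n) → l ≠ [] → Con n {G | ∃ F ∈ l, G ⊆ F} := by
  induction l with
  | nil => intro _ _ h; exact absurd rfl h
  | cons F l ih =>
    intro hS hc _
    have hF : F.card = n := hc F (by simp)
    by_cases hl : l = []
    · subst hl
      have e : {G | ∃ F' ∈ [F], G ⊆ F'} = {G | G ⊆ F} := by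
        ext G
        simp
      rw [e, ← hF]
      exact Con.simplex F
    · have i1 := ih hS.1 (fun G hG => hc G (List.mem_cons_of_mem _ hG)) hl
      obtain ⟨G0, hG0⟩ := List.exists_mem_of_ne_nil l hl
      obtain ⟨H0, hH0, y0, hy0, _, hy0H⟩ := hS.2 G0 hG0
      have hpos : 0 < F.card := card_pos.2 ⟨y0, hy0⟩
      have e0 : n = F.card - 1 + 1 := by omega
      classical
      let Y := F.filter (fun y => ∃ H ∈ l, F.erase y ⊆ H)
      have hYn : Y.Nonempty := ⟨y0, mem_filter.2 ⟨hy0, H0, hH0, hy0H⟩⟩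
      have i3 := con_erase Y hYn F (filter_subset _ _)
      have e1 : {G | ∃ y ∈ Y, G ⊆ F.erase y} = {G | G ⊆ F} ∩ {G | ∃ F' ∈ l, G ⊆ F'} := by
        ext G
        constructor
        · rintro ⟨y, hy, h⟩
          obtain ⟨_, H, hH, hyH⟩ := mem_filter.1 hy
          exact ⟨h.trans (erase_subset _ _), H, hH, h.trans hyH⟩
        · rintro ⟨h1, G', hG', h2⟩
          obtain ⟨H, hH, y, hy, h3, h4⟩ := hS.2 G' hG'
          exact ⟨y, mem_filter.2 ⟨hy, H, hH, h4⟩, (subset_inter h1 h2).trans h3⟩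
      rw [e1] at i3
      have i2 : Con n {G | G ⊆ F} := hF ▸ Con.simplex F
      rw [e0] at i1 i2 ⊢
      have e2 : {G | ∃ F' ∈ F :: l, G ⊆ F'} = {G | G ⊆ F} ∪ {G | ∃ F' ∈ l, G ⊆ F'} := by
        ext G
        constructor
        · rintro ⟨F', hF', h⟩
          rcases List.mem_cons.1 hF' with rfl | hF'
          · exact Or.inl h
          · exact Or.inr ⟨F', hF', h⟩
        · rintro (h | ⟨F', hF', h⟩)
          · exact ⟨F, by simp, h⟩
          · exact ⟨F', List.mem_cons_of_mem _ hF', h⟩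
      rw [e2]
      exact Con.union _ _ _ i2 i1 i3

/-- the facets of maximal dimension in a shelling are a shelling -/
theorem shell_filter {V : Type} [DecidableEq V] {n : ℕ} (l : List (Finset V)) :
    Shell l → (∀ F ∈ l, F.card ≤ n) → (∀ F ∈ l, ∀ G ∈ l, F ⊆ G → F = G) →
    Shell (l.filter (fun F => decide (F.card = n))) := by
  induction l with
  | nil => intro _ _ _; trivial
  | cons F l ih =>
    intro hS hc ha
    have i1 := ih hS.1 (fun G hG => hc G (List.mem_cons_of_mem _ hG))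
      (fun G hG G' hG' => ha G (List.mem_cons_of_mem _ hG) G' (List.mem_cons_of_mem _ hG'))
    by_cases hF : F.card = n
    · rw [List.filter_cons_of_pos (by simpa using hF)]
      refine ⟨i1, ?_⟩
      intro G hG
      rw [List.mem_filter] at hG
      obtain ⟨H, hH, y, hy, h1, h2⟩ := hS.2 G hG.1
      refine ⟨H, ?_, y, hy, h1, h2⟩
      rw [List.mem_filter, decide_eq_true_eq]
      refine ⟨hH, ?_⟩
      have h3 := card_le_card h2
      rw [card_erase_of_mem hy] at h3
      have h4 := hc H (List.mem_cons_of_mem _ hH)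
      by_contra h5
      have h6 : F.erase y = H := eq_of_subset_of_card_le h2 (by
        rw [card_erase_of_mem hy]
        omega)
      have h7 : H = F := ha H (List.mem_cons_of_mem _ hH) F (by simp) (by
        rw [← h6]
        exact erase_subset _ _)
      rw [h7] at h6
      have h8 : y ∈ F.erase y := by
        rw [h6]
        exact hy
      exact (notMem_erase y F) h8
    · rw [List.filter_cons_of_neg (by simpa using hF)]
      exact i1

/-- the top part of a complex which is shellable in the sense of Björner and Wachs is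
constructible -/
theorem top_of_nonpureShellable {V : Type} {Δ : Cx V} (hne : Δ.faces.Nonempty)
    (h : NonpureShellable Δ) : Constructible (top Δ) := by
  classical
  obtain ⟨l, _, hl, hsh⟩ := h
  have h1 := shell_take l hsh l.length le_rfl
  rw [List.take_length] at h1
  obtain ⟨F0, hF0, hmax⟩ := exists_max_image Δ.faces card hne
  have hF0f : Δ.IsFacet F0 := ⟨hF0, fun G hG hFG =>
    (eq_of_subset_of_card_le hFG (hmax G hG)).symm⟩
  have hle : ∀ F ∈ l.reverse, F.card ≤ F0.card := by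
    intro F hF
    rw [List.mem_reverse, hl] at hF
    exact hmax F hF.1
  have h2 := shell_filter (n := F0.card) l.reverse h1 hle (by
    intro F hF G hG hFG
    rw [List.mem_reverse, hl] at hF hG
    exact (hF.2 G hG.1 hFG).symm)
  have h3 := con_of_shell (n := F0.card) _ h2 (by
    intro F hF
    rw [List.mem_filter, decide_eq_true_eq] at hF
    exact hF.2) (by
    have : F0 ∈ l.reverse.filter (fun F => decide (F.card = F0.card)) := by
      rw [List.mem_filter, decide_eq_true_eq, List.mem_reverse, hl]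
      exact ⟨hF0f, rfl⟩
    exact List.ne_nil_of_mem this)
  refine ⟨F0.card, ?_⟩
  have e : {F | F ∈ (top Δ).faces} =
      {G | ∃ F ∈ l.reverse.filter (fun F => decide (F.card = F0.card)), G ⊆ F} := by
    ext G
    constructor
    · intro hG
      obtain ⟨F, h4, h5, h6⟩ := mem_top.1 hG
      refine ⟨F, ?_, h5⟩
      rw [List.mem_filter, decide_eq_true_eq, List.mem_reverse, hl]
      exact ⟨⟨h4, fun G hG hFG => (eq_of_subset_of_card_le hFG (h6 G hG)).symm⟩,
        le_antisymm (hmax F h4) (h6 F0 hF0)⟩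
    · rintro ⟨F, h4, h5⟩
      rw [List.mem_filter, decide_eq_true_eq, List.mem_reverse, hl] at h4
      exact mem_top.2 ⟨F, h4.1.1, h5, fun F' hF' => h4.2 ▸ hmax F' hF'⟩
  rw [e]
  exact h3

/-- a shellable complex is shellable in the sense of Björner and Wachs -/
theorem nonpure_of_shellable {V : Type} {Δ : Cx V} (h : Δ.Shellable) : NonpureShellable Δ :=
  h.2

theorem card_Sub_le {L : Finset (Finset ℕ)} (hL : Old L) {F : Finset ℕ}
    (hF : F ∈ Sub L (decL Bm)) : ∃ A ∈ L, F.card = A.card := by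
  rcases mem_Sub.1 hF with ⟨h1, _⟩ | ⟨A, h1, h2, β, h3, rfl⟩
  · exact ⟨F, h1, rfl⟩
  · refine ⟨A, h1, ?_⟩
    obtain ⟨m, hm, rfl⟩ := mem_decL.1 h3
    have hd : Disjoint (dec m) (A \ s4) := by
      rw [disjoint_left]
      intro k hk
      exact hL.not_mem_sdiff h1 (by have := dec_lt (Bm_lt m hm) k hk; omega)
    rw [card_union_of_disjoint hd, Bm_card hm, card_sdiff_of_subset h2]
    have h4 : s4.card = 4 := by decide
    have h5 := card_le_card h2
    omega

/-- the top part after the replacement of a simplex by the special ball is not constructible -/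
theorem not_con {L : Finset (Finset ℕ)} (hL : Old L) {n : ℕ} (hn : ∀ F ∈ L, F.card ≤ n)
    {F0 : Finset ℕ} (hF0 : F0 ∈ L) (hF0c : F0.card = n) (hs : s4 ⊆ F0) :
    ¬ Constructible (top (gen (Sub L (decL Bm)))) := by
  rintro ⟨m, hm⟩
  have hτ : ∀ k ∈ F0 \ s4, 64 ≤ k := by
    intro k hk
    by_contra hcon
    exact hL.not_mem_sdiff hF0 (by omega) hk
  have hn4 : 4 ≤ n := by
    have h4 : s4.card = 4 := by decide
    have h5 := card_le_card hs
    omega
  have hτc : (F0 \ s4).card + 4 = n := by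
    rw [card_sdiff_of_subset hs]
    have h4 : s4.card = 4 := by decide
    omega
  have hSn : ∀ F ∈ Sub L (decL Bm), F.card ≤ n := by
    intro F hF
    obtain ⟨A, hA, e⟩ := card_Sub_le hL hF
    rw [e]
    exact hn A hA
  have hgn : ∀ F ∈ (gen (Sub L (decL Bm))).faces, F.card ≤ n := by
    intro F hF
    obtain ⟨A, hA, h⟩ := mem_gen.1 hF
    exact (card_le_card h).trans (hSn A hA)
  have hdisj : ∀ m ∈ Bm, Disjoint (dec m) (F0 \ s4) := by
    intro m hm
    rw [disjoint_left]
    intro k hk hk'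
    have h3 := dec_lt (Bm_lt m hm) k hk
    have h4 := hτ k hk'
    omega
  have hBF : ∀ m ∈ Bm, dec m ∪ (F0 \ s4) ∈ Sub L (decL Bm) := fun m hm =>
    mem_Sub.2 (Or.inr ⟨F0, hF0, hs, dec m, mem_decL.2 ⟨m, hm, rfl⟩, rfl⟩)
  have hBc : ∀ m ∈ Bm, (dec m ∪ (F0 \ s4)).card = n := by
    intro m hm
    rw [card_union_of_disjoint (hdisj m hm), Bm_card hm]
    omega
  have hBt : ∀ m ∈ Bm, dec m ∪ (F0 \ s4) ∈ (top (gen (Sub L (decL Bm)))).faces := by
    intro m hm
    refine mem_top.2 ⟨_, mem_gen.2 ⟨_, hBF m hm, Subset.refl _⟩, Subset.refl _, ?_⟩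
    intro F' hF'
    rw [hBc m hm]
    exact hgn F' hF'
  have h23 : 23 ∈ Bm := by decide
  have htop : ∀ G ∈ (top (gen (Sub L (decL Bm)))).faces, ∃ F ∈ Sub L (decL Bm), G ⊆ F ∧
      F.card = n := by
    intro G hG
    obtain ⟨F, h1, h2, h3⟩ := mem_top.1 hG
    obtain ⟨A, hA, hFA⟩ := mem_gen.1 h1
    refine ⟨A, hA, h2.trans hFA, ?_⟩
    have h4 := h3 _ (mem_gen.2 ⟨_, hBF 23 h23, Subset.refl _⟩)
    rw [hBc 23 h23] at h4
    exact le_antisymm (hSn A hA) (h4.trans (card_le_card hFA))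
  have hmn : m = n := by
    apply le_antisymm
    · obtain ⟨F, hF, hFc⟩ := hm.facet
      obtain ⟨A, hA, h1, h2⟩ := htop F hF
      rw [← hFc, ← h2]
      exact card_le_card h1
    · rw [← hBc 23 h23]
      exact hm.card_le _ (hBt 23 h23)
  subst hmn
  have hτt : F0 \ s4 ∈ {F | F ∈ (top (gen (Sub L (decL Bm)))).faces} :=
    Cx.down _ _ (hBt 23 h23) _ subset_union_right
  have hlink := hm.link (F0 \ s4) hτt
  have e4 : m - (F0 \ s4).card = 4 := by omega
  rw [e4] at hlink
  refine no_con hlink ?_ ?_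
  · rintro F ⟨hd, hF⟩ hFc
    obtain ⟨F', hF', h1, h2⟩ := htop _ hF
    have h3 : F ∪ (F0 \ s4) = F' := by
      apply eq_of_subset_of_card_le h1
      rw [card_union_of_disjoint hd, hFc]
      omega
    have hFF' : F ⊆ F' := h3 ▸ subset_union_left
    have hτF' : F0 \ s4 ⊆ F' := h3 ▸ subset_union_right
    rcases mem_Sub.1 hF' with ⟨h4, h5⟩ | ⟨A, h4, h5, β, h6, h7⟩
    · right
      intro k hk
      exact hL F' h4 k (hFF' hk)
    · left
      obtain ⟨b, hb, rfl⟩ := mem_decL.1 h6
      refine ⟨b, hb, ?_⟩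
      have h8 : F0 \ s4 ⊆ A \ s4 := by
        intro k hk
        rcases mem_union.1 (h7.symm ▸ hτF' hk : k ∈ dec b ∪ (A \ s4)) with h9 | h9
        · have := dec_lt (Bm_lt b hb) k h9
          have := hτ k hk
          omega
        · exact h9
      have h10 : F0 \ s4 = A \ s4 := by
        apply eq_of_subset_of_card_le h8
        rw [card_sdiff_of_subset h5, card_sdiff_of_subset hs]
        have := hn A h4
        omega
      have h11 : (dec b ∪ (F0 \ s4)) \ (F0 \ s4) = dec b :=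
        union_sdiff_cancel_right (hdisj b hb)
      have h12 : (F ∪ (F0 \ s4)) \ (F0 \ s4) = F := union_sdiff_cancel_right hd
      rw [← h11, h10, h7, ← h3, h10]
      rw [h10] at h12
      exact h12
  · intro b hb
    exact ⟨hdisj b hb, hBt b hb⟩

/-- the vertices of a family -/
def vts (L : Finset (Finset ℕ)) : Finset ℕ := L.biUnion id

theorem mem_vts {L : Finset (Finset ℕ)} {w : ℕ} : w ∈ vts L ↔ ∃ F ∈ L, w ∈ F := by
  simp [vts]

theorem vts_le (L : Finset (Finset ℕ)) : (vts L).card ≤ (gen L).faces.card := by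
  have h : (vts L).image (fun w => ({w} : Finset ℕ)) ⊆ (gen L).faces := by
    intro A hA
    obtain ⟨w, hw, rfl⟩ := mem_image.1 hA
    obtain ⟨F, hF, hwF⟩ := mem_vts.1 hw
    exact mem_gen.2 ⟨F, hF, singleton_subset_iff.2 hwF⟩
  have h2 := card_le_card h
  rwa [card_image_of_injective _ singleton_injective] at h2

/-- families with many vertices in the same class -/
theorem exists_many {L : Finset (Finset ℕ)} {n : ℕ} (h2n : 2 ≤ n) (hn : ∀ F ∈ L, F.card ≤ n)
    (hex : ∃ F ∈ L, F.card = n) (N : ℕ) : ∃ L' : Finset (Finset ℕ), StEq (gen L) (gen L') ∧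
      Nonempty (Sp L' ≃ₜ Sp L) ∧ (∀ F ∈ L', F.card ≤ n) ∧ (∃ F ∈ L', F.card = n) ∧
      ((∀ F ∈ L, F.card = n) → ∀ F ∈ L', F.card = n) ∧ N ≤ (vts L').card := by
  induction N with
  | zero => exact ⟨L, StEq.rfl' _, ⟨Homeomorph.refl _⟩, hn, hex, fun h => h, Nat.zero_le _⟩
  | succ N ih =>
    obtain ⟨L', h1, ⟨e1⟩, h2, ⟨F0, hF0, hF0c⟩, h3, h4⟩ := ih
    obtain ⟨v, hv⟩ := Infinite.exists_notMem_finset (vts L')
    have hvL : ∀ F ∈ L', v ∉ F := fun F hF h => hv (mem_vts.2 ⟨F, hF, h⟩)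
    have hne : F0.Nonempty := card_pos.1 (by omega)
    obtain ⟨e2⟩ := star_homeo L' F0 v hne hvL (hvL F0 hF0)
    have hcard : ∀ F ∈ L', F0 ⊆ F → ∀ z ∈ F0, (insert v (F.erase z)).card = F.card := by
      intro F hF hFF z hz
      rw [card_insert_of_notMem (fun h => hvL F hF (mem_of_mem_erase h)),
        card_erase_of_mem (hFF hz)]
      have := card_pos.2 ⟨z, hFF hz⟩
      omega
    refine ⟨star L' F0 v, StEq.trans _ _ _ h1 (st_star L' F0 v hne hvL (hvL F0 hF0)),
      ⟨e2.trans e1⟩, ?_, ?_, ?_, ?_⟩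
    · intro F hF
      rcases mem_star.1 hF with ⟨h5, _⟩ | ⟨A, h5, h6, z, hz, rfl⟩
      · exact h2 F h5
      · rw [hcard A h5 h6 z hz]
        exact h2 A h5
    · obtain ⟨z, hz⟩ := hne
      exact ⟨insert v (F0.erase z), mem_star.2 (Or.inr ⟨F0, hF0, Subset.refl _, z, hz, rfl⟩), by
        rw [hcard F0 hF0 (Subset.refl _) z hz, hF0c]⟩
    · intro hall F hF
      rcases mem_star.1 hF with ⟨h5, _⟩ | ⟨A, h5, h6, z, hz, rfl⟩
      · exact h3 hall F h5
      · rw [hcard A h5 h6 z hz]
        exact h3 hall A h5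
    · have hsub : insert v (vts L') ⊆ vts (star L' F0 v) := by
        intro w hw
        rw [mem_vts]
        rcases mem_insert.1 hw with rfl | hw
        · obtain ⟨z, hz⟩ := hne
          exact ⟨insert w (F0.erase z),
            mem_star.2 (Or.inr ⟨F0, hF0, Subset.refl _, z, hz, rfl⟩), mem_insert_self _ _⟩
        · obtain ⟨F, hF, hwF⟩ := mem_vts.1 hw
          by_cases hFF : F0 ⊆ F
          · obtain ⟨z, hz, hzw⟩ : ∃ z ∈ F0, z ≠ w := by
              by_contra hcon
              push Not at hcon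
              have h7 : F0 ⊆ {w} := fun z hz => mem_singleton.2 (hcon z hz)
              have h8 := card_le_card h7
              rw [card_singleton] at h8
              omega
            exact ⟨insert v (F.erase z), mem_star.2 (Or.inr ⟨F, hF, hFF, z, hz, rfl⟩),
              mem_insert_of_mem (mem_erase.2 ⟨fun e => hzw e.symm, hwF⟩)⟩
          · exact ⟨F, mem_star.2 (Or.inl ⟨hF, hFF⟩), hwF⟩
      have h9 := card_le_card hsub
      rw [card_insert_of_notMem hv] at h9
      omega

/-- **Main theorem.** -/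
theorem main2 (X : Type*) [TopologicalSpace X] (V : Type) (Δ : Cx V)
    (h : Nonempty (X ≃ₜ Δ.space)) (hd : ∃ F ∈ Δ.faces, 4 ≤ F.card) (N : ℕ) :
    ∃ Γ : Cx ℕ, StEq Δ Γ ∧ Nonempty (X ≃ₜ Γ.space) ∧ N ≤ Γ.faces.card ∧
      (Δ.Pure → Γ.Pure) ∧ ¬ Constructible (top Γ) := by
  classical
  obtain ⟨F1, hF1, hF1c⟩ := hd
  obtain ⟨Fm, hFm, hmax⟩ := exists_max_image Δ.faces card ⟨F1, hF1⟩
  have hn4 : 4 ≤ Fm.card := hF1c.trans (hmax F1 hF1)
  have hFmf : Δ.IsFacet Fm := ⟨hFm, fun G hG hFG =>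
    (eq_of_subset_of_card_le hFG (hmax G hG)).symm⟩
  set n := Fm.card with hn
  set L0 := Δ.faces.filter (fun F => Δ.IsFacet F) with hL0
  set S := Δ.faces.biUnion id with hS
  have hSF : ∀ F ∈ L0, F ⊆ S := by
    intro F hF v hv
    rw [hS, mem_biUnion]
    exact ⟨F, (mem_filter.1 hF).1, hv⟩
  have hFm0 : Fm ∈ L0 := mem_filter.2 ⟨hFm, hFmf⟩
  -- the facets generate the complex
  have hgen0 : StEq Δ (gen L0) := by
    refine StEq.of_eq fun G => ?_
    rw [mem_gen]
    constructor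
    · rintro ⟨F, hF, hGF⟩
      exact Δ.down F (mem_filter.1 hF).1 G hGF
    · intro hG
      obtain ⟨A, hA, hGA⟩ := exists_facet Δ hG
      exact ⟨A, mem_filter.2 ⟨hA.1, hA⟩, hGA⟩
  have hsp : Δ.space = Sp L0 := by
    apply Set.Subset.antisymm
    · apply sp_le
      intro F hF
      obtain ⟨G, hG, hFG⟩ := exists_facet Δ hF
      exact ⟨G, mem_filter.2 ⟨hG.1, hG⟩, hFG⟩
    · apply sp_le
      intro F hF
      exact ⟨F, (mem_filter.1 hF).1, Subset.refl F⟩
  -- the first relabelling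
  have hrel : ∀ (W : Type) [DecidableEq W] (L : Finset (Finset W)) (S : Finset W) (A : Finset W)
      (hSL : ∀ F ∈ L, F ⊆ S) (hA : A ∈ L) (hAc : 4 ≤ A.card) (hLc : ∀ F ∈ L, F.card ≤ A.card),
      ∃ L' : Finset (Finset ℕ), Old L' ∧ StEq (gen L) (gen L') ∧ Nonempty (Sp L' ≃ₜ Sp L) ∧
        (∀ F ∈ L', F.card ≤ A.card) ∧ (∃ F ∈ L', F.card = A.card ∧ s4 ⊆ F) ∧
        ((∀ F ∈ L, F.card = A.card) → ∀ F ∈ L', F.card = A.card) ∧
        (∀ M : Finset W, (∀ w ∈ M, ∃ F ∈ L, w ∈ F) → M.card ≤ (vts L').card) := by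
    intro W _ L S A hSL hA hAc hLc
    obtain ⟨σ, hσA, hσ4⟩ := exists_subset_card_eq hAc
    obtain ⟨f, hf1, hf2, hf3⟩ := exists_label S σ (hσA.trans (hSL A hA)) hσ4
    have hc : ∀ F ∈ L, (F.image f).card = F.card := by
      intro F hF
      exact card_image_of_injOn (hf1.mono (by exact_mod_cast hSL F hF))
    refine ⟨L.image (fun F => F.image f), ?_, st_relabel L f S hSL hf1,
      relabel_homeo L f S hSL hf1, ?_, ?_, ?_, ?_⟩
    · intro B hB k hk
      obtain ⟨F, hF, rfl⟩ := mem_image.1 hB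
      obtain ⟨v, hv, rfl⟩ := mem_image.1 hk
      exact hf2 v (hSL F hF hv)
    · intro B hB
      obtain ⟨F, hF, rfl⟩ := mem_image.1 hB
      rw [hc F hF]
      exact hLc F hF
    · refine ⟨A.image f, mem_image.2 ⟨A, hA, rfl⟩, hc A hA, ?_⟩
      intro k hk
      rw [mem_s4] at hk
      obtain ⟨v, hv, rfl⟩ := hf3 k hk
      exact mem_image_of_mem f (hσA hv)
    · intro hall B hB
      obtain ⟨F, hF, rfl⟩ := mem_image.1 hB
      rw [hc F hF]
      exact hall F hF
    · intro M hM
      have h1 : M.image f ⊆ vts (L.image (fun F => F.image f)) := by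
        intro k hk
        obtain ⟨w, hw, rfl⟩ := mem_image.1 hk
        obtain ⟨F, hF, hwF⟩ := hM w hw
        exact mem_vts.2 ⟨F.image f, mem_image.2 ⟨F, hF, rfl⟩, mem_image_of_mem f hwF⟩
      have h2 : M ⊆ S := by
        intro w hw
        obtain ⟨F, hF, hwF⟩ := hM w hw
        exact hSL F hF hwF
      have h3 := card_le_card h1
      rwa [card_image_of_injOn (hf1.mono (by exact_mod_cast h2))] at h3
  obtain ⟨L1, -, s1, ⟨e1⟩, h1c, ⟨A1, hA1, hA1c, -⟩, h1p, -⟩ := hrel V L0 S Fm hSF hFm0 hn4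
    (fun F hF => hmax F (mem_filter.1 hF).1)
  -- many vertices
  obtain ⟨L2, s2, ⟨e2⟩, h2c, ⟨A2, hA2, hA2c⟩, h2p, h2N⟩ := exists_many (by omega : 2 ≤ n) h1c
    ⟨A1, hA1, hA1c⟩ (N + 4)
  -- the second relabelling
  obtain ⟨L3, hOld, s3, ⟨e3⟩, h3c, ⟨A3, hA3, hA3c, hs⟩, h3p, h3N⟩ := hrel ℕ L2 (vts L2) A2
    (fun F hF w hw => mem_vts.2 ⟨F, hF, hw⟩) hA2 (by omega) (fun F hF => by
      rw [hA2c]; exact h2c F hF)
  have h3N' := h3N (vts L2) (fun w hw => mem_vts.1 hw)
  obtain ⟨e4⟩ := sub_homeo L3 hOld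
  refine ⟨gen (Sub L3 (decL Bm)), ?_, ?_, ?_, ?_, not_con hOld h3c hA3 hA3c hs⟩
  · exact StEq.trans _ _ _ hgen0 (StEq.trans _ _ _ s1 (StEq.trans _ _ _ s2
      (StEq.trans _ _ _ s3 (st_sub L3 hOld))))
  · obtain ⟨e0⟩ := h
    rw [hsp] at e0
    rw [space_gen]
    exact ⟨e0.trans (e1.symm.trans (e2.symm.trans (e3.symm.trans e4.symm)))⟩
  · have h5 : vts L3 \ s4 ⊆ vts (Sub L3 (decL Bm)) := by
      intro w hw
      obtain ⟨hw, hw4⟩ := mem_sdiff.1 hw
      obtain ⟨F, hF, hwF⟩ := mem_vts.1 hw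
      rw [mem_vts]
      by_cases hsF : s4 ⊆ F
      · exact ⟨dec 23 ∪ (F \ s4), mem_Sub.2 (Or.inr ⟨F, hF, hsF, dec 23,
          mem_decL.2 ⟨23, by decide, rfl⟩, rfl⟩), mem_union_right _ (mem_sdiff.2 ⟨hwF, hw4⟩)⟩
      · exact ⟨F, mem_Sub.2 (Or.inl ⟨hF, hsF⟩), hwF⟩
    have h6 := card_le_card h5
    have h7 := le_card_sdiff s4 (vts L3)
    have h8 : s4.card = 4 := by decide
    have h9 := vts_le (Sub L3 (decL Bm))
    omega
  · intro hp
    have h10 : ∀ F ∈ L0, F.card = n := fun F hF => hp F Fm (mem_filter.1 hF).2 hFmf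
    have h11 : ∀ F ∈ L3, F.card = A2.card := h3p (by
      rw [hA2c]
      exact h2p (h1p h10))
    have h12 : ∀ F ∈ Sub L3 (decL Bm), F.card = A2.card := by
      intro F hF
      obtain ⟨A, hA, e⟩ := card_Sub_le hOld hF
      rw [e]
      exact h11 A hA
    intro A A' hA hA'
    rw [h12 A ((facet_gen h12 A).1 hA), h12 A' ((facet_gen h12 A').1 hA')]

end Pool.Agent.Y769.NC
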